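import Pool.Agent.Q155.HS.Sob

/-!
# The Hilbert-Smith conjecture for homeomorphisms which are Sobolev off a fixed closed set

Let `n ≥ 2`, let `X` be a metric space and `E` a closed subset such that the regular points outside
of `E` (the points with a neighbourhood bi-Lipschitz equivalent to an open subset of `ℝⁿ`) form a
dense connected set. For example `X` is an Alexandrov space of dimension `n` or a Lipschitz manifold
and `E` is a closed set with empty interior which does not separate the regular part; `E` may have
codimension one or positive measure. Every locally compact group which acts faithfully and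
continuously on `X`, such that every element near the identity is locally of Sobolev class `W^{1,q}`,
`q > n - 1`, on the regular part outside of `E`, is a Lie group. Nothing is assumed at the points of
`E`, and `E` need not be invariant under the group, so that this does not follow by restriction to
the complement of `E`.

Proof. The local theorem (near each regular point off `E` an open subgroup acts trivially) and
Newman's theorem for the class are only used at points off `E`, in charts with domain off `E`; the
interior of the fixed set of a pro-`p` subgroup is closed in the connected set of regular points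
off `E`, and this set is dense.
-/

set_option autoImplicit false

namespace Pool.Agent.Results.MP_afaf30_gt.SobolevOffClosedSet

open MeasureTheory Set Metric Filter Topology
open scoped ENNReal

/-- A bi-Lipschitz chart with values in Euclidean `n`-space. -/
def BiLip {X : Type} [MetricSpace X] (n : ℕ) (U : Set X) (ψ : X → EuclideanSpace ℝ (Fin n))
    (L : ℝ) : Prop :=
  IsOpen U ∧ IsOpen (ψ '' U) ∧
    ∀ a ∈ U, ∀ b ∈ U, dist (ψ a) (ψ b) ≤ L * dist a b ∧ dist a b ≤ L * dist (ψ a) (ψ b)

/-- The points with a neighbourhood which is bi-Lipschitz equivalent to an open subset of Euclidean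
`n`-space. -/
def Reg (n : ℕ) (X : Type) [MetricSpace X] : Set X :=
  {x | ∃ (U : Set X) (ψ : X → EuclideanSpace ℝ (Fin n)) (L : ℝ), x ∈ U ∧ BiLip n U ψ L}

/-- The Sobolev class `W^{1,q}_loc` on the set `S` of regular points, in the form of Hajlasz: on
every compact subset of `S` there is `g` with `d(fa, fb) ≤ d(a, b) (g(a) + g(b))`, and `g^q` has
finite integral for the `n`-dimensional Hausdorff measure. -/
def Sobolev (n : ℕ) (q : ℝ) {X : Type} [MetricSpace X] [MeasurableSpace X] [BorelSpace X]
    (S : Set X) (f : X → X) : Prop :=
  ∀ C ⊆ S, IsCompact C → ∃ g : X → ℝ≥0∞, Measurable g ∧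
    (∀ a ∈ C, ∀ b ∈ C, edist (f a) (f b) ≤ edist a b * (g a + g b)) ∧
    ∫⁻ a in C, g a ^ q ∂(Measure.hausdorffMeasure (n : ℝ)) < ∞

/-- The Hilbert-Smith conjecture for homeomorphisms of class `W^{1,q}`, `q > n - 1`, off a fixed
closed set. -/
theorem result :
    ∀ (n : ℕ), 2 ≤ n → ∀ (X : Type) [MetricSpace X] [MeasurableSpace X] [BorelSpace X]
      (E : Set X), IsClosed E → Dense (Reg n X \ E) → IsPreconnected (Reg n X \ E) →
      ∀ (G : Type) [Group G] [TopologicalSpace G] [IsTopologicalGroup G] [LocallyCompactSpace G]
        [MulAction G X] [ContinuousSMul G X] [FaithfulSMul G X],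
        (∀ᶠ g in 𝓝 (1 : G), ∃ q : ℝ, (n : ℝ) - 1 < q ∧
          Sobolev n q (Reg n X \ E) (fun x : X => g • x)) →
        ∃ (m : ℕ) (_ : ChartedSpace (EuclideanSpace ℝ (Fin m)) G),
          LieGroup (modelWithCornersSelf ℝ (EuclideanSpace ℝ (Fin m)))
            ((⊤ : ℕ∞) : WithTop ℕ∞) G := by
  intro n hn X _ _ _ E hE hd hc G _ _ _ _ _ _ _ h
  exact Pool.Agent.Q155.HS.lie_sob (S := Pool.Agent.Y485.HS.Reg n X \ E) hn
    (Pool.Agent.Y485.HS.isOpen_Reg.sdiff hE) sdiff_subset hd hc h

end Pool.Agent.Results.MP_afaf30_gt.SobolevOffClosedSet
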